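import Pool.Agent.K3h12.AS2.Res

/-!
# Project AS2: the local field at a root
-/

set_option autoImplicit false

open Pool.Agent.K3h46.AS

namespace Pool.Agent.K3h12.AS2

section

variable {F K : Type} [Field F] [Field K]

/-- The expansion of a polynomial at `ρ`, as a power series. -/
noncomputable def PS (i : F →+* K) (ρ : K) : Polynomial F →+* PowerSeries K :=
  (Polynomial.coeToPowerSeries.ringHom (R := K)).comp
    ((Polynomial.taylorAlgHom ρ).toRingHom.comp (Polynomial.mapRingHom i))

lemma PS_apply (i : F →+* K) (ρ : K) (g : Polynomial F) :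
    PS i ρ g = ((Polynomial.taylor ρ (g.map i) : Polynomial K) : PowerSeries K) := rfl

lemma PS_injective (i : F →+* K) (ρ : K) : Function.Injective (PS i ρ) := by
  intro a b h
  rw [PS_apply, PS_apply] at h
  exact Polynomial.map_injective i i.injective (Polynomial.taylor_injective ρ
    (Polynomial.coe_injective K h))

lemma PS_coeff_zero (i : F →+* K) (ρ : K) (g : Polynomial F) :
    PowerSeries.coeff 0 (PS i ρ g) = (g.map i).eval ρ := by
  rw [PS_apply, Polynomial.coeff_coe, Polynomial.taylor_coeff_zero]

lemma PS_coeff_one (i : F →+* K) (ρ : K) (g : Polynomial F) :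
    PowerSeries.coeff 1 (PS i ρ g) = ((Polynomial.derivative g).map i).eval ρ := by
  rw [PS_apply, Polynomial.coeff_coe, Polynomial.taylor_coeff_one, Polynomial.derivative_map]

/-- The embedding of the polynomials in the Laurent series in `s = u - ρ`. -/
noncomputable def LS (i : F →+* K) (ρ : K) : Polynomial F →+* LaurentSeries K :=
  (HahnSeries.ofPowerSeries ℤ K).comp (PS i ρ)

lemma LS_injective (i : F →+* K) (ρ : K) : Function.Injective (LS i ρ) := fun _ _ h =>
  PS_injective i ρ (HahnSeries.ofPowerSeries_injective h)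

lemma LS_C (i : F →+* K) (ρ : K) (c : F) : LS i ρ (Polynomial.C c) = HahnSeries.C (i c) := by
  change HahnSeries.ofPowerSeries ℤ K (PS i ρ (Polynomial.C c)) = _
  rw [PS_apply, Polynomial.map_C, Polynomial.taylor_C, Polynomial.coe_C, HahnSeries.ofPowerSeries_C]

lemma LS_X (i : F →+* K) (ρ : K) : LS i ρ Polynomial.X =
    HahnSeries.C ρ + HahnSeries.single 1 1 := by
  change HahnSeries.ofPowerSeries ℤ K (PS i ρ Polynomial.X) = _
  rw [PS_apply, Polynomial.map_X, Polynomial.taylor_X, Polynomial.coe_add, Polynomial.coe_X,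
    Polynomial.coe_C, map_add, HahnSeries.ofPowerSeries_C, HahnSeries.ofPowerSeries_X, add_comm]

end

/-- **LDR.** -/
theorem t_LDR : S_LDR := by
  intro p _ F K _ _ _ _ i ρ
  have hpp : p.Prime := Fact.out
  have hp : 0 < p := hpp.pos
  obtain ⟨θ, -, hθ, -⟩ := DerKap.t_DER K 0
  let δ : Derivation ℤ (LaurentSeries K) (LaurentSeries K) :=
    (HahnSeries.single (-1 : ℤ) (1 : K) : LaurentSeries K) • θ
  have hδ : ∀ (z : LaurentSeries K) (n : ℤ),
      (δ z).coeff n = ((n + 1 : ℤ) : K) * z.coeff (n + 1) := by
    intro z n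
    change ((HahnSeries.single (-1 : ℤ) (1 : K) : LaurentSeries K) * θ z).coeff n = _
    rw [HahnSeries.coeff_single_mul, one_mul, sub_neg_eq_add, hθ]
  have hC : ∀ a : K, δ (HahnSeries.C a) = 0 := by
    intro a
    ext n
    rw [hδ, HahnSeries.coeff_zero]
    by_cases hn : n + 1 = 0
    · rw [hn, Int.cast_zero, zero_mul]
    · rw [HahnSeries.C_apply, HahnSeries.coeff_single_of_ne hn, mul_zero]
  have hX : δ (HahnSeries.single 1 1) = 1 := by
    ext n
    rw [hδ, HahnSeries.coeff_one]
    split_ifs with hn
    · subst hn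
      simp
    · rw [HahnSeries.coeff_single_of_ne (by omega), mul_zero]
  have hd : ∀ g : Polynomial F, δ (LS i ρ g) = LS i ρ (Polynomial.derivative g) := by
    intro g
    induction g using Polynomial.induction_on with
    | C a => rw [LS_C, hC, Polynomial.derivative_C, map_zero]
    | add a b ha hb => rw [map_add, map_add, ha, hb, Polynomial.derivative_add, map_add]
    | monomial n a ih =>
      rw [pow_succ, ← mul_assoc]
      generalize Polynomial.C a * Polynomial.X ^ n = q at ih ⊢
      rw [map_mul, Derivation.leibniz, ih, LS_X, map_add, hC, zero_add, hX,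
        Polynomial.derivative_mul, Polynomial.derivative_X, map_add, map_mul, map_mul, LS_X,
        smul_eq_mul, smul_eq_mul, map_one (LS i ρ)]
      ring
  refine ⟨LS i ρ, δ, LS_injective i ρ, LS_C i ρ, LS_X i ρ, hδ, hd, ?_, ?_⟩
  · intro z
    ext n
    rw [iterate_coeff (⇑δ) hδ, HahnSeries.coeff_zero]
    have h1 : ∏ j ∈ Finset.range p, ((n + 1 + (j : ℤ) : ℤ) : K) = 0 := by
      have hp' : (p : ℤ) ≠ 0 := by exact_mod_cast hp.ne'
      have h2 : 0 ≤ (-(n + 1)) % p := Int.emod_nonneg _ hp'
      have h3 : (-(n + 1)) % p < p := Int.emod_lt_of_pos _ (by exact_mod_cast hp)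
      refine Finset.prod_eq_zero (i := ((-(n + 1)) % p).toNat) ?_ ?_
      · rw [Finset.mem_range]
        omega
      · rw [Int.toNat_of_nonneg h2, CharP.intCast_eq_zero_iff K p]
        have h4 := Int.emod_add_mul_ediv (-(n + 1)) p
        exact ⟨-((-(n + 1)) / p), by linarith⟩
    rw [h1, zero_mul]
  · intro φ g hφ hF hρ
    have : PerfectField F := PerfectRing.toPerfectField F p
    have hsep : φ.Separable := PerfectField.separable_iff_squarefree.2 hφ
    have hd1 : ((Polynomial.derivative φ).map i).eval ρ ≠ 0 := by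
      intro h0
      have hsep' : (φ.map i).Separable := hsep.map
      obtain ⟨a, b, hab⟩ := hsep'
      have h1 := congrArg (Polynomial.eval ρ) hab
      rw [Polynomial.eval_add, Polynomial.eval_mul, Polynomial.eval_mul, hρ,
        Polynomial.derivative_map, h0, mul_zero, mul_zero, add_zero, Polynomial.eval_one] at h1
      exact zero_ne_one h1
    have h0 : PowerSeries.X ∣ PS i ρ φ := by
      rw [PowerSeries.X_dvd_iff, ← PowerSeries.coeff_zero_eq_constantCoeff_apply, PS_coeff_zero, hρ]
    obtain ⟨u, hu⟩ := h0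
    have hu0 : PowerSeries.constantCoeff u = ((Polynomial.derivative φ).map i).eval ρ := by
      rw [← PS_coeff_one, hu, ← PowerSeries.coeff_zero_eq_constantCoeff_apply]
      exact (PowerSeries.coeff_succ_X_mul 0 u).symm
    have hu1 : u * u⁻¹ = 1 := PowerSeries.mul_inv_cancel u (by rw [hu0]; exact hd1)
    have h2 : LS i ρ g / LS i ρ φ = HahnSeries.single (-1 : ℤ) (1 : K) *
        HahnSeries.ofPowerSeries ℤ K (PS i ρ g * u⁻¹) := by
      have hne : LS i ρ φ ≠ 0 := by
        intro h
        have h3 : φ = 0 := LS_injective i ρ (by rw [h, map_zero])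
        rw [h3, Polynomial.derivative_zero, Polynomial.map_zero, Polynomial.eval_zero] at hd1
        exact hd1 rfl
      rw [div_eq_iff hne]
      have h4 : LS i ρ φ = HahnSeries.single (1 : ℤ) (1 : K) * HahnSeries.ofPowerSeries ℤ K u := by
        change HahnSeries.ofPowerSeries ℤ K (PS i ρ φ) = _
        rw [hu, map_mul, HahnSeries.ofPowerSeries_X]
      have h5 : (HahnSeries.single (-1 : ℤ) (1 : K) : LaurentSeries K) *
          HahnSeries.single (1 : ℤ) (1 : K) = 1 := by
        rw [HahnSeries.single_mul_single, neg_add_cancel, one_mul]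
        rfl
      have h6 : HahnSeries.ofPowerSeries ℤ K u * HahnSeries.ofPowerSeries ℤ K u⁻¹ = 1 := by
        rw [← map_mul, hu1, map_one]
      rw [h4, map_mul]
      change HahnSeries.ofPowerSeries ℤ K (PS i ρ g) = _
      linear_combination (-(HahnSeries.ofPowerSeries ℤ K (PS i ρ g))) * h6 +
        (-(HahnSeries.ofPowerSeries ℤ K (PS i ρ g)) * (HahnSeries.ofPowerSeries ℤ K u *
          HahnSeries.ofPowerSeries ℤ K u⁻¹)) * h5
    constructor
    · intro n hn
      rw [h2, HahnSeries.coeff_single_mul, one_mul, PowerSeries.coeff_coe, if_pos (by omega)]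
    · intro h3
      rw [h2, HahnSeries.coeff_single_mul, one_mul, PowerSeries.coeff_coe, if_neg (by omega)] at h3
      have h4 : PowerSeries.coeff 0 (PS i ρ g * u⁻¹) = 0 := h3
      rw [PowerSeries.coeff_zero_eq_constantCoeff_apply, map_mul,
        ← PowerSeries.coeff_zero_eq_constantCoeff_apply, PS_coeff_zero] at h4
      refine (mul_eq_zero.1 h4).resolve_right fun h5 => ?_
      have h6 := congrArg (PowerSeries.constantCoeff (R := K)) hu1
      rw [map_mul, h5, mul_zero, map_one] at h6
      exact zero_ne_one h6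

end Pool.Agent.K3h12.AS2
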