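import Pool.Agent.K3h46.AS.Stm2
import Pool.Agent.K3h46.AS.Der

/-!
# Project AS2: residues of logarithmic forms
-/

set_option autoImplicit false

open Pool.Agent.K3h46.AS

namespace Pool.Agent.K3h12.AS2

section

variable {K : Type} [Field K]

/-- The coefficients of an iterated derivative. -/
lemma iterate_coeff (D : LaurentSeries K → LaurentSeries K)
    (hD : ∀ (z : LaurentSeries K) (n : ℤ), (D z).coeff n = ((n + 1 : ℤ) : K) * z.coeff (n + 1))
    (k : ℕ) (z : LaurentSeries K) (n : ℤ) :
    ((D^[k]) z).coeff n =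
      (∏ i ∈ Finset.range k, ((n + 1 + (i : ℤ) : ℤ) : K)) * z.coeff (n + k) := by
  induction k generalizing n with
  | zero => simp
  | succ k ih =>
    rw [Function.iterate_succ_apply', hD, ih, Finset.prod_range_succ']
    have e1 : n + 1 + (k : ℤ) = n + ((k + 1 : ℕ) : ℤ) := by push_cast; ring
    have e2 : ∏ i ∈ Finset.range k, ((n + 1 + 1 + (i : ℤ) : ℤ) : K) =
        ∏ i ∈ Finset.range k, ((n + 1 + ((i + 1 : ℕ) : ℤ) : ℤ) : K) := by
      refine Finset.prod_congr rfl fun i _ => ?_
      congr 1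
      push_cast
      ring
    rw [e1, e2]
    simp only [Nat.cast_zero, add_zero]
    ring

/-- The polar part of a Laurent series. -/
lemma exists_split (b : LaurentSeries K) : ∃ (N : ℕ) (f : PowerSeries K),
    b = ∑ k ∈ Finset.range (N + 1), HahnSeries.single (-((k : ℤ) + 1)) (b.coeff (-((k : ℤ) + 1))) +
      HahnSeries.ofPowerSeries ℤ K f := by
  refine ⟨(-b.order).toNat, PowerSeries.mk fun n => b.coeff n, ?_⟩
  ext n
  rw [HahnSeries.coeff_add, HahnSeries.coeff_sum, PowerSeries.coeff_coe]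
  split_ifs with hn
  · rw [add_zero]
    obtain ⟨k, hk⟩ : ∃ k : ℕ, n = -((k : ℤ) + 1) := ⟨(-n - 1).toNat, by omega⟩
    subst hk
    by_cases hkN : k < (-b.order).toNat + 1
    · rw [Finset.sum_eq_single k]
      · rw [HahnSeries.coeff_single_same]
      · intro j _ hj
        rw [HahnSeries.coeff_single_of_ne]
        omega
      · intro h
        exact absurd (Finset.mem_range.2 hkN) h
    · rw [Finset.sum_eq_zero]
      · apply HahnSeries.coeff_eq_zero_of_lt_order
        omega
      · intro j hj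
        have hj' := Finset.mem_range.1 hj
        rw [HahnSeries.coeff_single_of_ne]
        omega
  · rw [Finset.sum_eq_zero, zero_add, PowerSeries.coeff_mk]
    · congr 1
      omega
    · intro j _
      rw [HahnSeries.coeff_single_of_ne]
      omega

lemma charP_laurent (p : ℕ) [CharP K p] : CharP (LaurentSeries K) p :=
  charP_of_injective_ringHom (f := (HahnSeries.C : K →+* LaurentSeries K))
    HahnSeries.C_injective p

/-- The Frobenius map on the coefficient at `-1`. -/
lemma pow_coeff (p : ℕ) [Fact p.Prime] [CharP K p] (b : LaurentSeries K) :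
    (b ^ p).coeff (-(p : ℤ)) = (b.coeff (-1)) ^ p := by
  have hp : 0 < p := (Fact.out : p.Prime).pos
  have : CharP (LaurentSeries K) p := charP_laurent p
  obtain ⟨N, f, hb⟩ := exists_split b
  have h1 : b ^ p = ∑ k ∈ Finset.range (N + 1), HahnSeries.single (p • (-((k : ℤ) + 1)))
      ((b.coeff (-((k : ℤ) + 1))) ^ p) + HahnSeries.ofPowerSeries ℤ K (f ^ p) := by
    conv_lhs => rw [hb]
    rw [add_pow_char, sum_pow_char, map_pow]
    congr 1
    refine Finset.sum_congr rfl fun k _ => ?_
    rw [HahnSeries.single_pow]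
  rw [h1, HahnSeries.coeff_add, HahnSeries.coeff_sum, PowerSeries.coeff_coe,
    if_pos (by omega), add_zero, Finset.sum_eq_single 0]
  · have e1 : p • (-(((0 : ℕ) : ℤ) + 1)) = -(p : ℤ) := by
      rw [nsmul_eq_mul]
      push_cast
      ring
    rw [e1, HahnSeries.coeff_single_same]
    simp
  · intro k _ hk
    rw [HahnSeries.coeff_single_of_ne]
    intro h
    rw [nsmul_eq_mul] at h
    have h2 : (p : ℤ) * ((k : ℤ) + 1) = p * 1 := by linarith
    have h3 := mul_left_cancel₀ (by exact_mod_cast hp.ne') h2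
    apply hk
    omega
  · intro h
    exact absurd (Finset.mem_range.2 (Nat.succ_pos N)) h

end

/-- **RES.** -/
theorem t_RES : S_RES := by
  intro p _ K _ _ δ hδ b hb
  have hpp : p.Prime := Fact.out
  have hp : 0 < p := hpp.pos
  have h1 := congrArg (fun z : LaurentSeries K => z.coeff (-(p : ℤ))) hb
  change (b ^ p).coeff (-(p : ℤ)) = (-(⇑δ)^[p - 1] b).coeff (-(p : ℤ)) at h1
  rw [pow_coeff, HahnSeries.coeff_neg, iterate_coeff (⇑δ) hδ] at h1
  have e1 : -(p : ℤ) + ((p - 1 : ℕ) : ℤ) = -1 := by omega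
  have e2 : ∏ i ∈ Finset.range (p - 1), ((-(p : ℤ) + 1 + (i : ℤ) : ℤ) : K) = -1 := by
    have f1 : ∏ i ∈ Finset.range (p - 1), ((-(p : ℤ) + 1 + (i : ℤ) : ℤ) : K) =
        ((∏ i ∈ Finset.range (p - 1), (i + 1) : ℕ) : K) := by
      rw [Nat.cast_prod]
      refine Finset.prod_congr rfl fun i _ => ?_
      push_cast
      rw [CharP.cast_eq_zero]
      ring
    rw [f1, Finset.prod_range_add_one_eq_factorial]
    have f2 := ZMod.wilsons_lemma p
    have f3 := congrArg (ZMod.castHom (dvd_refl p) K) f2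
    rwa [map_natCast, map_neg, map_one] at f3
  rw [e1, e2] at h1
  have h2 : (b.coeff (-1)) ^ p = b.coeff (-1) := by rw [h1]; ring
  rw [← Subfield.mem_bot_iff_pow_eq_self, ← ZMod.fieldRange_castHom_eq_bot p] at h2
  obtain ⟨z, hz⟩ := h2
  refine ⟨z.val, ?_⟩
  rw [← hz]
  have := z.natCast_zmod_val
  conv_lhs => rw [← this]
  rw [map_natCast]

end Pool.Agent.K3h12.AS2
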